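import Pool.Agent.W475.BH.Stm

/-! Project BH, part BH-CAF: preparations (the profile, boxes, monotonicity of the number of zeros). -/

set_option autoImplicit false

namespace Pool.Agent.W490.BH

open Complex MeasureTheory Filter Topology Pool.Agent.W475.BH

/-! ### The profile -/

lemma Vh_cont {κ : ℝ} (hκ : 0 < κ) : Continuous (Vh κ) := by
  unfold Vh
  refine Continuous.if_le (by fun_prop) (by fun_prop) (by fun_prop) (by fun_prop) ?_
  intro x hx
  rw [hx]
  have : x ^ 2 = κ ^ 2 := by rw [← sq_abs, hx]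
  rw [this]
  field_simp
  ring

/-- one sided derivative bounds -/
lemma Vh_taylor {κ : ℝ} (hκ : 0 < κ) (x : ℝ) : ∃ D : ℝ, ∀ t : ℝ,
    Vh κ x + D * t ≤ Vh κ (x + t) ∧ Vh κ (x + t) ≤ Vh κ x + D * t + t ^ 2 / (4 * κ) := by
  have h4 : 0 < 4 * κ := by positivity
  have key : ∀ X : ℝ, Vh κ X = (if |X| ≤ κ then X ^ 2 else 2 * κ * |X| - κ ^ 2) / (4 * κ) := by
    intro X
    unfold Vh
    split_ifs with h
    · rfl
    · field_simp
      ring
  by_cases hx : |x| ≤ κ
  · refine ⟨x / (2 * κ), fun t => ?_⟩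
    have e1 : Vh κ x + x / (2 * κ) * t = (x ^ 2 + 2 * x * t) / (4 * κ) := by
      rw [key, if_pos hx]; field_simp; ring
    rw [e1, key (x + t), ← add_div, div_le_div_iff_of_pos_right h4, div_le_div_iff_of_pos_right h4]
    obtain ⟨x1, x2⟩ := abs_le.mp hx
    split_ifs with h
    · constructor <;> nlinarith [sq_nonneg t]
    · rw [not_le] at h
      rcases lt_abs.mp h with h' | h'
      · rw [abs_of_pos (by linarith)]
        constructor <;> nlinarith
      · rw [abs_of_neg (by linarith)]
        constructor <;> nlinarith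
  · rw [not_le] at hx
    rcases lt_abs.mp hx with h' | h'
    · refine ⟨1 / 2, fun t => ?_⟩
      have e1 : Vh κ x + 1 / 2 * t = (2 * κ * x - κ ^ 2 + 2 * κ * t) / (4 * κ) := by
        rw [key, if_neg (not_le.mpr hx), abs_of_pos (by linarith)]; field_simp; ring
      rw [e1, key (x + t), ← add_div, div_le_div_iff_of_pos_right h4,
        div_le_div_iff_of_pos_right h4]
      split_ifs with h
      · obtain ⟨x1, x2⟩ := abs_le.mp h
        constructor <;> nlinarith
      · rw [not_le] at h
        rcases lt_abs.mp h with h'' | h''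
        · rw [abs_of_pos (by linarith)]
          constructor <;> nlinarith
        · rw [abs_of_neg (by linarith)]
          constructor <;> nlinarith
    · refine ⟨-1 / 2, fun t => ?_⟩
      have e1 : Vh κ x + -1 / 2 * t = (-(2 * κ * x) - κ ^ 2 - 2 * κ * t) / (4 * κ) := by
        rw [key, if_neg (not_le.mpr hx), abs_of_neg (by linarith)]; field_simp; ring
      rw [e1, key (x + t), ← add_div, div_le_div_iff_of_pos_right h4,
        div_le_div_iff_of_pos_right h4]
      split_ifs with h
      · obtain ⟨x1, x2⟩ := abs_le.mp h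
        constructor <;> nlinarith
      · rw [not_le] at h
        rcases lt_abs.mp h with h'' | h''
        · rw [abs_of_pos (by linarith)]
          constructor <;> nlinarith
        · rw [abs_of_neg (by linarith)]
          constructor <;> nlinarith

/-- the profile as a function on the plane -/
noncomputable def VV (κ : ℝ) (z : ℂ) : ℝ := Vh κ z.re

lemma VV_cont {κ : ℝ} (hκ : 0 < κ) : Continuous (VV κ) :=
  (Vh_cont hκ).comp Complex.continuous_re

lemma circleIntegrable_cont {g : ℂ → ℝ} (hg : Continuous g) (w : ℂ) (r : ℝ) :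
    CircleIntegrable g w r :=
  hg.continuousOn.circleIntegrable'

lemma re_circleMap (w : ℂ) (r θ : ℝ) : (circleMap w r θ).re = w.re + r * Real.cos θ := by
  simp [circleMap, Complex.exp_re]

lemma ca_quad (A B C : ℝ) (w : ℂ) (r : ℝ) :
    Real.circleAverage (fun z => A + B * (z.re - w.re) + C * (z.re - w.re) ^ 2) w r =
      A + C * (r ^ 2 / 2) := by
  unfold Real.circleAverage
  have h1 : (fun θ : ℝ => A + B * ((circleMap w r θ).re - w.re) +
      C * ((circleMap w r θ).re - w.re) ^ 2) =
      fun θ : ℝ => A + B * r * Real.cos θ + C * r ^ 2 * Real.cos θ ^ 2 := by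
    funext θ
    rw [re_circleMap]
    ring
  rw [h1]
  have h2 : ∫ θ in (0:ℝ)..2 * Real.pi, (A + B * r * Real.cos θ + C * r ^ 2 * Real.cos θ ^ 2) =
      2 * Real.pi * A + C * r ^ 2 * Real.pi := by
    rw [intervalIntegral.integral_add (by apply Continuous.intervalIntegrable; fun_prop)
      (by apply Continuous.intervalIntegrable; fun_prop),
      intervalIntegral.integral_add (by apply Continuous.intervalIntegrable; fun_prop)
      (by apply Continuous.intervalIntegrable; fun_prop),
      intervalIntegral.integral_const, intervalIntegral.integral_const_mul,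
      intervalIntegral.integral_const_mul, integral_cos, integral_cos_sq]
    simp
  rw [h2]
  have := Real.pi_pos
  simp only [smul_eq_mul]
  field_simp

lemma ca_VV_bounds {κ : ℝ} (hκ : 0 < κ) (w : ℂ) (r : ℝ) :
    VV κ w ≤ Real.circleAverage (VV κ) w r ∧
      Real.circleAverage (VV κ) w r ≤ VV κ w + r ^ 2 / (8 * κ) := by
  obtain ⟨D, hD⟩ := Vh_taylor hκ w.re
  have h1 := ca_quad (VV κ w) D 0 w r
  have h2 := ca_quad (VV κ w) D (1 / (4 * κ)) w r
  constructor
  · rw [show VV κ w = VV κ w + 0 * (r ^ 2 / 2) by ring, ← h1]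
    refine Real.circleAverage_mono (circleIntegrable_cont (by fun_prop) _ _)
      (circleIntegrable_cont (VV_cont hκ) _ _) fun z _ => ?_
    have := (hD (z.re - w.re)).1
    rw [show w.re + (z.re - w.re) = z.re by ring] at this
    simpa [VV] using this
  · rw [show VV κ w + r ^ 2 / (8 * κ) = VV κ w + (1 / (4 * κ)) * (r ^ 2 / 2) by
      field_simp; ring, ← h2]
    refine Real.circleAverage_mono (circleIntegrable_cont (VV_cont hκ) _ _)
      (circleIntegrable_cont (by fun_prop) _ _) fun z _ => ?_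
    have := (hD (z.re - w.re)).2
    rw [show w.re + (z.re - w.re) = z.re by ring] at this
    have e : 1 / (4 * κ) * (z.re - w.re) ^ 2 = (z.re - w.re) ^ 2 / (4 * κ) := by ring
    simp only [VV]
    rw [e]
    exact this

lemma sphere_re {w z : ℂ} {r : ℝ} (hr : 0 < r) (hz : z ∈ Metric.sphere w |r|) :
    |z.re - w.re| ≤ r := by
  rw [mem_sphere_iff_norm, abs_of_pos hr] at hz
  rw [← hz, ← Complex.sub_re]
  exact Complex.abs_re_le_norm _

lemma ca_VV_inner {κ : ℝ} (hκ : 0 < κ) {w : ℂ} {r : ℝ} (hr : 0 < r) (hw : |w.re| ≤ κ - r) :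
    Real.circleAverage (VV κ) w r = VV κ w + r ^ 2 / (8 * κ) := by
  have h2 := ca_quad (VV κ w) (w.re / (2 * κ)) (1 / (4 * κ)) w r
  rw [show VV κ w + r ^ 2 / (8 * κ) = VV κ w + (1 / (4 * κ)) * (r ^ 2 / 2) by
      field_simp; ring, ← h2]
  apply Real.circleAverage_congr_sphere
  intro z hz
  have h3 := sphere_re hr hz
  have h4 : |z.re| ≤ κ := by
    calc |z.re| = |w.re + (z.re - w.re)| := by ring_nf
      _ ≤ |w.re| + |z.re - w.re| := abs_add_le _ _
      _ ≤ κ := by linarith
  have h5 : |w.re| ≤ κ := by linarith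
  simp only [VV, Vh]
  rw [if_pos h4, if_pos h5]
  field_simp
  ring

lemma ca_VV_outer {κ : ℝ} (hκ : 0 < κ) {w : ℂ} {r : ℝ} (hr : 0 < r) (hw : κ + r ≤ |w.re|) :
    Real.circleAverage (VV κ) w r = VV κ w := by
  have hlt : κ < |w.re| := by linarith
  have hlin : ∀ z : ℂ, |z.re - w.re| ≤ r → VV κ z = VV κ w + (if 0 < w.re then 1 / 2 else -1 / 2) *
      (z.re - w.re) := by
    intro z hz
    obtain ⟨z1, z2⟩ := abs_le.mp hz
    have e2 : VV κ w = |w.re| / 2 - κ / 4 := by simp only [VV, Vh]; rw [if_neg (not_le.mpr hlt)]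
    have hz' : κ ≤ |z.re| := by
      have : |w.re| ≤ |z.re| + |z.re - w.re| := by
        calc |w.re| = |z.re - (z.re - w.re)| := by ring_nf
          _ ≤ |z.re| + |z.re - w.re| := abs_sub _ _
      linarith
    have e1 : VV κ z = |z.re| / 2 - κ / 4 := by
      simp only [VV, Vh]
      split_ifs with h
      · have h6 : |z.re| = κ := le_antisymm h hz'
        have : z.re ^ 2 = κ ^ 2 := by rw [← sq_abs, h6]
        rw [this, h6]
        field_simp
        ring
      · rfl
    rw [e1, e2]
    split_ifs with h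
    · have a1 : |w.re| = w.re := abs_of_pos h
      rw [a1] at hw ⊢
      rw [abs_of_pos (by linarith)]
      ring
    · have a1 : |w.re| = -w.re := abs_of_nonpos (by linarith)
      rw [a1] at hw ⊢
      rw [abs_of_neg (by linarith)]
      ring
  have h2 := ca_quad (VV κ w) (if 0 < w.re then 1 / 2 else -1 / 2) 0 w r
  rw [show VV κ w = VV κ w + 0 * (r ^ 2 / 2) by ring, ← h2]
  apply Real.circleAverage_congr_sphere
  intro z hz
  rw [hlin z (sphere_re hr hz)]
  ring

/-! ### Boxes -/

lemma Bx_eq (a b c d : ℝ) : Bx a b c d = Complex.measurableEquivRealProd ⁻¹'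
    (Set.Icc a b ×ˢ Set.Icc c d) := by
  ext z
  simp only [Bx, Set.mem_ofPred_eq, Set.mem_preimage, Set.mem_prod, Set.mem_Icc,
    Complex.measurableEquivRealProd_apply]
  tauto

lemma Bx_closed (a b c d : ℝ) : IsClosed (Bx a b c d) := by
  have : Bx a b c d = (Complex.re ⁻¹' Set.Icc a b) ∩ (Complex.im ⁻¹' Set.Icc c d) := by
    ext z
    simp only [Bx, Set.mem_ofPred_eq, Set.mem_inter_iff, Set.mem_preimage, Set.mem_Icc]
    tauto
  rw [this]
  exact (isClosed_Icc.preimage Complex.continuous_re).inter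
    (isClosed_Icc.preimage Complex.continuous_im)

lemma Bx_compact (a b c d : ℝ) : IsCompact (Bx a b c d) := by
  refine Metric.isCompact_of_isClosed_isBounded (Bx_closed a b c d) ?_
  rw [Metric.isBounded_iff_subset_closedBall 0]
  refine ⟨(|a| + |b|) + (|c| + |d|), fun z hz => ?_⟩
  obtain ⟨h1, h2, h3, h4⟩ := hz
  rw [mem_closedBall_zero_iff]
  refine (Complex.norm_le_abs_re_add_abs_im z).trans (add_le_add ?_ ?_)
  · rw [abs_le]
    constructor <;> linarith [neg_abs_le a, le_abs_self b, abs_nonneg a, abs_nonneg b]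
  · rw [abs_le]
    constructor <;> linarith [neg_abs_le c, le_abs_self d, abs_nonneg c, abs_nonneg d]

lemma Bx_vol (a b c d : ℝ) : volume.real (Bx a b c d) = max (b - a) 0 * max (d - c) 0 := by
  rw [Bx_eq, measureReal_def,
    Complex.volume_preserving_equiv_real_prod.measure_preimage
      ((measurableSet_Icc.prod measurableSet_Icc).nullMeasurableSet),
    Measure.volume_eq_prod, Measure.prod_prod, Real.volume_Icc, Real.volume_Icc,
    ENNReal.toReal_mul, ENNReal.toReal_ofReal', ENNReal.toReal_ofReal']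

lemma Bx_mono {a b c d a' b' c' d' : ℝ} (ha : a' ≤ a) (hb : b ≤ b') (hc : c' ≤ c) (hd : d ≤ d') :
    Bx a b c d ⊆ Bx a' b' c' d' := by
  rintro z ⟨h1, h2, h3, h4⟩
  exact ⟨by linarith, by linarith, by linarith, by linarith⟩

/-! ### The number of zeros -/

lemma zeros_fin {f : ℂ → ℂ} (hf : Differentiable ℂ f) (h0 : ∃ z, f z ≠ 0) {K : Set ℂ}
    (hK : IsCompact K) : (K ∩ Function.support fun z => analyticOrderNatAt f z).Finite := by
  by_contra hinf
  obtain ⟨z₀, _, hz₀⟩ := Set.Infinite.exists_accPt_of_subset_isCompact hinf hK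
    Set.inter_subset_left
  obtain ⟨z₁, hz₁⟩ := h0
  apply hz₁
  have han : AnalyticOnNhd ℂ f Set.univ := fun z _ => hf.analyticAt z
  have hfr : ∃ᶠ z in 𝓝[≠] z₀, f z = 0 := by
    have h1 := accPt_iff_frequently_nhdsNE.mp hz₀
    refine h1.mono fun z hz => ?_
    by_contra hne
    apply hz.2
    show analyticOrderNatAt f z = 0
    unfold analyticOrderNatAt
    rw [(hf.analyticAt z).analyticOrderAt_eq_zero.mpr hne]
    rfl
  have := han.eqOn_zero_of_preconnected_of_frequently_eq_zero isPreconnected_univ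
    (Set.mem_univ z₀) hfr
  exact this (Set.mem_univ z₁)

lemma nz_mono {f : ℂ → ℂ} (hf : Differentiable ℂ f) (h0 : ∃ z, f z ≠ 0) {A K : Set ℂ}
    (hK : IsCompact K) (hA : A ⊆ K) : nz f A ≤ nz f K := by
  unfold nz
  have h := finsum_mem_inter_add_sdiff' (s := K) A (f := fun z => analyticOrderNatAt f z)
    (zeros_fin hf h0 hK)
  rw [Set.inter_eq_self_of_subset_right hA] at h
  omega

lemma nz_mono' {f : ℂ → ℂ} (hf : Differentiable ℂ f) (h0 : ∃ z, f z ≠ 0) {A B K : Set ℂ}
    (hK : IsCompact K) (hA : A ⊆ B) (hB : B ⊆ K) : nz f A ≤ nz f B := by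
  unfold nz
  have h := finsum_mem_inter_add_sdiff' (s := B) A (f := fun z => analyticOrderNatAt f z)
    ((zeros_fin hf h0 hK).subset (Set.inter_subset_inter_left _ hB))
  rw [Set.inter_eq_self_of_subset_right hA] at h
  omega

end Pool.Agent.W490.BH
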