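import Pool.Agent.W490.BH.Caf1

/-! Project BH, part BH-CAF: counting zeros from the profile. -/

set_option autoImplicit false

namespace Pool.Agent.W490.BH

open Complex MeasureTheory Filter Topology Pool.Agent.W475.BH

lemma int_log (h1 : S_CA1) {f : ℂ → ℂ} (hf : Differentiable ℂ f) (h0 : ∃ z, f z ≠ 0)
    {κ : ℝ} (hκ : 0 < κ) (M : ℝ) :
    LocallyIntegrable (fun z => Real.log ‖f z‖ - M * VV κ z) volume :=
  (h1 f hf h0).sub ((continuous_const.mul (VV_cont hκ)).locallyIntegrable)

lemma int_abs (h1 : S_CA1) {f : ℂ → ℂ} (hf : Differentiable ℂ f) (h0 : ∃ z, f z ≠ 0)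
    {κ : ℝ} (hκ : 0 < κ) (M : ℝ) {K : Set ℂ} (hK : IsCompact K) :
    IntegrableOn (fun z => |Real.log ‖f z‖ - M * VV κ z|) K volume :=
  ((int_log h1 hf h0 hκ M).integrableOn_isCompact hK).abs

lemma cover_est (h1 : S_CA1) (h4 : S_CA4) {κ : ℝ} (hκ : 0 < κ) {N : ℕ} (hN : 2 ≤ N)
    {δ M : ℝ} (hδ : 0 < δ) (hδN : δ ≤ 1 / (2 * N)) (hM : 0 < M) {f : ℂ → ℂ}
    (hf : Differentiable ℂ f) (h0 : ∃ z, f z ≠ 0)
    (H1 : ∀ z : ℂ, |z.re| ≤ κ + 4 → -4 ≤ z.im → z.im ≤ 5 →
      ‖f z‖ ≤ Real.exp (M * (Vh κ z.re + δ)))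
    (H2 : ∀ z : ℂ, |z.re| ≤ κ + 2 → -2 ≤ z.im → z.im ≤ 3 →
      ∃ w : ℂ, ‖w - z‖ ≤ δ ∧ Real.exp (M * (Vh κ w.re - δ)) ≤ ‖f w‖) :
    ∫ z in Bx (-κ - 2) (κ + 2) (-1) 2, |Real.log ‖f z‖ - M * VV κ z| ≤
      16 * Real.pi * (2 * κ + 5) * (M * (3 * δ + 1 / (4 * κ * (N : ℝ) ^ 2))) := by
  have hN0 : (0 : ℝ) < N := by
    have : 0 < N := by omega
    exact_mod_cast this
  have hN2 : (2 : ℝ) ≤ N := by exact_mod_cast hN
  have hpi := Real.pi_pos
  set I : Finset (ℕ × ℕ) := Finset.range (⌊(2 * κ + 4) * N⌋₊ + 1) ×ˢ Finset.range (3 * N + 1) with hI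
  have hmem : ∀ p : ℕ × ℕ, p ∈ I → (p.1 : ℝ) / N ≤ 2 * κ + 4 ∧ (p.2 : ℝ) / N ≤ 3 := by
    intro p hp
    rw [hI, Finset.mem_product, Finset.mem_range, Finset.mem_range] at hp
    constructor
    · rw [div_le_iff₀ hN0]
      have h5 : (p.1 : ℝ) ≤ (⌊(2 * κ + 4) * N⌋₊ : ℝ) := by
        have : p.1 ≤ ⌊(2 * κ + 4) * N⌋₊ := by omega
        exact_mod_cast this
      exact h5.trans (Nat.floor_le (by positivity))
    · rw [div_le_iff₀ hN0]
      have : p.2 ≤ 3 * N := by omega
      exact_mod_cast this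
  have hW : ∀ p : ℕ × ℕ, p ∈ I → ∃ w : ℂ,
      ‖w - ⟨-κ - 2 + p.1 / N, -1 + p.2 / N⟩‖ ≤ δ ∧ Real.exp (M * (Vh κ w.re - δ)) ≤ ‖f w‖ := by
    intro p hp
    obtain ⟨a1, a2⟩ := hmem p hp
    have b1 : (0 : ℝ) ≤ (p.1 : ℝ) / N := by positivity
    have b2 : (0 : ℝ) ≤ (p.2 : ℝ) / N := by positivity
    apply H2
    · simp only
      rw [abs_le]
      constructor <;> linarith
    · simp only; linarith
    · simp only; linarith
  choose! w hw1 hw2 using hW
  set ρ : ℝ := 2 / N with hρ
  have hρ0 : 0 < ρ := by positivity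
  have hρ1 : ρ ≤ 1 := by rw [hρ, div_le_one hN0]; exact hN2
  have hδ1 : δ ≤ 1 / 4 := by
    refine hδN.trans ?_
    rw [div_le_div_iff₀ (by positivity) (by norm_num)]
    linarith
  -- each ball
  have hball : ∀ p ∈ I, ∫ z in Metric.closedBall (w p) ρ, |Real.log ‖f z‖ - M * VV κ z| ≤
      Real.pi * ρ ^ 2 * M * (3 * δ + ρ ^ 2 / (16 * κ)) := by
    intro p hp
    obtain ⟨a1, a2⟩ := hmem p hp
    have b1 : (0 : ℝ) ≤ (p.1 : ℝ) / N := by positivity
    have b2 : (0 : ℝ) ≤ (p.2 : ℝ) / N := by positivity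
    refine h4 κ M δ ρ f (w p) hκ hM hδ hρ0 hf ?_ (hw2 p hp)
    intro z hz
    have c1 := (Complex.abs_re_le_norm _).trans hz
    have c2 := (Complex.abs_im_le_norm _).trans hz
    have c3 := (Complex.abs_re_le_norm _).trans (hw1 p hp)
    have c4 := (Complex.abs_im_le_norm _).trans (hw1 p hp)
    rw [Complex.sub_re, abs_le] at c1 c3
    rw [Complex.sub_im, abs_le] at c2 c4
    simp only at c3 c4
    apply H1
    · rw [abs_le]
      constructor <;> linarith [c1.1, c1.2, c3.1, c3.2]
    · linarith [c2.1, c2.2, c4.1, c4.2]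
    · linarith [c2.1, c2.2, c4.1, c4.2]
  -- the balls cover
  have hcov : ∀ z ∈ Bx (-κ - 2) (κ + 2) (-1) 2, ∃ p ∈ I, z ∈ Metric.closedBall (w p) ρ := by
    rintro z ⟨g1, g2, g3, g4⟩
    have e1 : 0 ≤ (z.re + κ + 2) * N := by
      apply mul_nonneg _ hN0.le
      linarith
    have e2 : 0 ≤ (z.im + 1) * N := by
      apply mul_nonneg _ hN0.le
      linarith
    set i := ⌊(z.re + κ + 2) * N⌋₊ with hi
    set j := ⌊(z.im + 1) * N⌋₊ with hj
    have i1 := Nat.floor_le e1
    have i2 := Nat.lt_floor_add_one ((z.re + κ + 2) * N)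
    have j1 := Nat.floor_le e2
    have j2 := Nat.lt_floor_add_one ((z.im + 1) * N)
    rw [← hi] at i1 i2
    rw [← hj] at j1 j2
    have hpI : (i, j) ∈ I := by
      rw [hI, Finset.mem_product, Finset.mem_range, Finset.mem_range]
      constructor
      · have : i ≤ ⌊(2 * κ + 4) * N⌋₊ := by
          apply Nat.floor_mono
          apply mul_le_mul_of_nonneg_right _ hN0.le
          linarith
        show i < _
        omega
      · have : (j : ℝ) ≤ 3 * N := by
          refine j1.trans ?_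
          apply mul_le_mul_of_nonneg_right _ hN0.le
          linarith
        have : j ≤ 3 * N := by exact_mod_cast this
        show j < _
        omega
    refine ⟨(i, j), hpI, ?_⟩
    have hd := hw1 (i, j) hpI
    simp only at hd
    rw [mem_closedBall_iff_norm]
    set q : ℂ := ⟨-κ - 2 + i / N, -1 + j / N⟩ with hq
    have k1 : |(z - q).re| ≤ 1 / N := by
      rw [Complex.sub_re, hq]
      simp only
      have m1 : (i : ℝ) / N ≤ z.re + κ + 2 := by rw [div_le_iff₀ hN0]; exact i1
      have m2 : z.re + κ + 2 < (i : ℝ) / N + 1 / N := by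
        rw [← add_div, lt_div_iff₀ hN0]; exact i2
      rw [abs_le]
      constructor
      · have : 0 ≤ 1 / (N : ℝ) := by positivity
        linarith
      · linarith
    have k2 : |(z - q).im| ≤ 1 / N := by
      rw [Complex.sub_im, hq]
      simp only
      have m1 : (j : ℝ) / N ≤ z.im + 1 := by rw [div_le_iff₀ hN0]; exact j1
      have m2 : z.im + 1 < (j : ℝ) / N + 1 / N := by
        rw [← add_div, lt_div_iff₀ hN0]; exact j2
      rw [abs_le]
      constructor
      · have : 0 ≤ 1 / (N : ℝ) := by positivity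
        linarith
      · linarith
    have k3 : ‖z - q‖ ≤ 3 / 2 * (1 / N) := by
      have h5 : ‖z - q‖ ^ 2 ≤ (3 / 2 * (1 / N)) ^ 2 := by
        rw [Complex.sq_norm, Complex.normSq_apply]
        have s1 : (z - q).re * (z - q).re ≤ (1 / N) * (1 / N) := by
          rw [← abs_mul_abs_self]
          exact mul_self_le_mul_self (abs_nonneg _) k1
        have s2 : (z - q).im * (z - q).im ≤ (1 / N) * (1 / N) := by
          rw [← abs_mul_abs_self]
          exact mul_self_le_mul_self (abs_nonneg _) k2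
        have s3 : (0 : ℝ) ≤ (1 / N) * (1 / N) := by positivity
        nlinarith
      exact le_of_sq_le_sq h5 (by positivity)
    calc ‖z - w (i, j)‖ = ‖(z - q) - (w (i, j) - q)‖ := by ring_nf
      _ ≤ ‖z - q‖ + ‖w (i, j) - q‖ := norm_sub_le _ _
      _ ≤ 3 / 2 * (1 / N) + 1 / (2 * N) := add_le_add k3 (hd.trans hδN)
      _ = ρ := by rw [hρ]; field_simp; norm_num
  set h : ℂ → ℝ := fun z => |Real.log ‖f z‖ - M * VV κ z| with hh
  have hh0 : ∀ z, 0 ≤ h z := fun z => abs_nonneg _
  have hBm : MeasurableSet (Bx (-κ - 2) (κ + 2) (-1) 2) := (Bx_closed _ _ _ _).measurableSet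
  have hsum : ∫ z in Bx (-κ - 2) (κ + 2) (-1) 2, h z ≤
      ∑ p ∈ I, ∫ z in Metric.closedBall (w p) ρ, h z := by
    rw [← integral_indicator hBm]
    have hint : ∀ p ∈ I, Integrable ((Metric.closedBall (w p) ρ).indicator h) volume := by
      intro p _
      rw [integrable_indicator_iff Metric.isClosed_closedBall.measurableSet]
      exact int_abs h1 hf h0 hκ M (isCompact_closedBall _ _)
    calc ∫ z, (Bx (-κ - 2) (κ + 2) (-1) 2).indicator h z ≤
        ∫ z, ∑ p ∈ I, (Metric.closedBall (w p) ρ).indicator h z := by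
          apply integral_mono
          · rw [integrable_indicator_iff hBm]
            exact int_abs h1 hf h0 hκ M (Bx_compact _ _ _ _)
          · exact integrable_finsetSum _ hint
          · intro z
            have hn : ∀ p ∈ I, 0 ≤ (Metric.closedBall (w p) ρ).indicator h z :=
              fun p _ => Set.indicator_nonneg (fun z _ => hh0 z) z
            by_cases hz : z ∈ Bx (-κ - 2) (κ + 2) (-1) 2
            · obtain ⟨p, hp, hzp⟩ := hcov z hz
              rw [Set.indicator_of_mem hz]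
              have := Finset.single_le_sum hn hp
              rwa [Set.indicator_of_mem hzp] at this
            · rw [Set.indicator_of_notMem hz]
              exact Finset.sum_nonneg hn
      _ = ∑ p ∈ I, ∫ z in Metric.closedBall (w p) ρ, h z := by
          rw [integral_finsetSum _ hint]
          refine Finset.sum_congr rfl fun p _ => ?_
          rw [integral_indicator Metric.isClosed_closedBall.measurableSet]
  have hcard : (I.card : ℝ) ≤ 4 * (2 * κ + 5) * N ^ 2 := by
    rw [hI, Finset.card_product, Finset.card_range, Finset.card_range]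
    push_cast
    have f1 : (⌊(2 * κ + 4) * N⌋₊ : ℝ) ≤ (2 * κ + 4) * N := Nat.floor_le (by positivity)
    have f2 : (⌊(2 * κ + 4) * N⌋₊ : ℝ) + 1 ≤ (2 * κ + 5) * N := by nlinarith
    have f3 : (3 * (N : ℝ) + 1) ≤ 4 * N := by linarith
    calc ((⌊(2 * κ + 4) * N⌋₊ : ℝ) + 1) * (3 * N + 1) ≤ ((2 * κ + 5) * N) * (4 * N) := by
          apply mul_le_mul f2 f3 (by positivity) (by positivity)
      _ = _ := by ring
  have hX0 : 0 ≤ Real.pi * ρ ^ 2 * M * (3 * δ + ρ ^ 2 / (16 * κ)) := by positivity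
  calc ∫ z in Bx (-κ - 2) (κ + 2) (-1) 2, h z ≤
      ∑ p ∈ I, ∫ z in Metric.closedBall (w p) ρ, h z := hsum
    _ ≤ ∑ p ∈ I, Real.pi * ρ ^ 2 * M * (3 * δ + ρ ^ 2 / (16 * κ)) := Finset.sum_le_sum hball
    _ = I.card * (Real.pi * ρ ^ 2 * M * (3 * δ + ρ ^ 2 / (16 * κ))) := by
        rw [Finset.sum_const, nsmul_eq_mul]
    _ ≤ 4 * (2 * κ + 5) * N ^ 2 * (Real.pi * ρ ^ 2 * M * (3 * δ + ρ ^ 2 / (16 * κ))) :=
        mul_le_mul_of_nonneg_right hcard hX0
    _ = _ := by
        rw [hρ]
        field_simp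
        ring

lemma J_est (h1 : S_CA1) (h3 : S_CA3F) {κ : ℝ} (hκ : 0 < κ) (M : ℝ) {f : ℂ → ℂ}
    (hf : Differentiable ℂ f) (h0 : ∃ z, f z ≠ 0) {a b c d r : ℝ} (hr : 0 < r) (hab : a ≤ b)
    (hcd : c ≤ d) :
    IntegrableOn (fun w => Real.circleAverage (VV κ) w r - VV κ w) (Bx a b c d) ∧
    |(∫ w in Bx a b c d, (Real.circleAverage (fun z => Real.log ‖f z‖) w r - Real.log ‖f w‖)) -
      M * ∫ w in Bx a b c d, (Real.circleAverage (VV κ) w r - VV κ w)| ≤
      2 * ∫ w in Bx (a - r) (b + r) (c - r) (d + r), |Real.log ‖f w‖ - M * VV κ w| := by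
  set h : ℂ → ℝ := fun z => Real.log ‖f z‖ - M * VV κ z with hh
  have hli : LocallyIntegrable h volume := int_log h1 hf h0 hκ M
  have hlog : ∀ w r, CircleIntegrable (fun z => Real.log ‖f z‖) w r := by
    intro w r
    apply MeromorphicOn.circleIntegrable_log_norm
    intro z _
    exact (hf.analyticAt z).meromorphicAt
  have hVci : ∀ w r, CircleIntegrable (fun z => M * VV κ z) w r := fun w r =>
    circleIntegrable_cont (continuous_const.mul (VV_cont hκ)) w r
  have hhci : ∀ w r, CircleIntegrable h w r := fun w r => (hlog w r).sub (hVci w r)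
  have hhm : Measurable h := by
    apply Measurable.sub
    · exact (hf.continuous.norm.measurable).log
    · exact (continuous_const.mul (VV_cont hκ)).measurable
  obtain ⟨i1, i2⟩ := h3 h hhm hli hhci a b c d r hr hab hcd
  obtain ⟨j1, _⟩ := h3 (VV κ) (VV_cont hκ).measurable (VV_cont hκ).locallyIntegrable
    (fun w r => circleIntegrable_cont (VV_cont hκ) w r) a b c d r hr hab hcd
  have hcomp := Bx_compact a b c d
  have hV : IntegrableOn (VV κ) (Bx a b c d) :=
    (VV_cont hκ).locallyIntegrable.integrableOn_isCompact hcomp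
  have hhI : IntegrableOn h (Bx a b c d) := hli.integrableOn_isCompact hcomp
  have k1 : IntegrableOn (fun w => Real.circleAverage (VV κ) w r - VV κ w) (Bx a b c d) := j1.sub hV
  refine ⟨k1, ?_⟩
  have e1 : ∀ w, Real.circleAverage (fun z => Real.log ‖f z‖) w r - Real.log ‖f w‖ =
      (Real.circleAverage h w r - h w) + M * (Real.circleAverage (VV κ) w r - VV κ w) := by
    intro w
    have e2 : (fun z => Real.log ‖f z‖) = fun z => h z + M * VV κ z := by
      funext z
      simp only [hh]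
      ring
    rw [e2, Real.circleAverage_fun_add (hhci w r) (hVci w r)]
    have e3 : Real.circleAverage (fun z => M * VV κ z) w r = M * Real.circleAverage (VV κ) w r := by
      have := Real.circleAverage_fun_smul (a := M) (f := VV κ) (c := w) (R := r)
      simpa [smul_eq_mul] using this
    rw [e3]
    simp only [hh]
    ring
  have e4 : (∫ w in Bx a b c d, (Real.circleAverage (fun z => Real.log ‖f z‖) w r -
      Real.log ‖f w‖)) = (∫ w in Bx a b c d, (Real.circleAverage h w r - h w)) +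
      M * ∫ w in Bx a b c d, (Real.circleAverage (VV κ) w r - VV κ w) := by
    have k0 : IntegrableOn (fun w => Real.circleAverage h w r - h w) (Bx a b c d) := i1.sub hhI
    rw [← integral_const_mul, ← integral_add k0 (k1.const_mul M)]
    apply integral_congr_ae
    filter_upwards with w
    exact e1 w
  rw [e4, add_sub_cancel_right, integral_sub i1 hhI]
  have hcomp' := Bx_compact (a - r) (b + r) (c - r) (d + r)
  have hbig : ∫ w in Bx a b c d, |h w| ≤ ∫ w in Bx (a - r) (b + r) (c - r) (d + r), |h w| := by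
    apply setIntegral_mono_set (int_abs h1 hf h0 hκ M hcomp')
    · filter_upwards with w
      exact abs_nonneg _
    · apply LE.le.eventuallyLE
      exact Bx_mono (by linarith) (by linarith) (by linarith) (by linarith)
  calc |(∫ w in Bx a b c d, Real.circleAverage h w r) - ∫ w in Bx a b c d, h w| ≤
      |∫ w in Bx a b c d, Real.circleAverage h w r| + |∫ w in Bx a b c d, h w| := abs_sub _ _
    _ ≤ (∫ w in Bx (a - r) (b + r) (c - r) (d + r), |h w|) +
        ∫ w in Bx (a - r) (b + r) (c - r) (d + r), |h w| := by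
        refine add_le_add i2 ((abs_integral_le_integral_abs).trans hbig)
    _ = _ := by ring

lemma Ju_upper {κ : ℝ} (hκ : 0 < κ) {a b c d r : ℝ} (hr : 0 < r)
    (hi : IntegrableOn (fun w => Real.circleAverage (VV κ) w r - VV κ w) (Bx a b c d)) :
    ∫ w in Bx a b c d, (Real.circleAverage (VV κ) w r - VV κ w) ≤
      r ^ 2 / (8 * κ) * (max (min b (κ + r) - max a (-κ - r)) 0 * max (d - c) 0) := by
  have hB' : MeasurableSet (Bx (max a (-κ - r)) (min b (κ + r)) c d) :=
    (Bx_closed _ _ _ _).measurableSet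
  have hsub : Bx (max a (-κ - r)) (min b (κ + r)) c d ⊆ Bx a b c d :=
    Bx_mono (le_max_left _ _) (min_le_left _ _) le_rfl le_rfl
  calc ∫ w in Bx a b c d, (Real.circleAverage (VV κ) w r - VV κ w) ≤
      ∫ w in Bx a b c d, (Bx (max a (-κ - r)) (min b (κ + r)) c d).indicator
        (fun _ => r ^ 2 / (8 * κ)) w := by
        apply setIntegral_mono_on hi
        · apply IntegrableOn.indicator _ hB'
          rw [integrableOn_const_iff]
          right
          exact (Bx_compact _ _ _ _).measure_lt_top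
        · exact (Bx_closed _ _ _ _).measurableSet
        · rintro w ⟨w1, w2, w3, w4⟩
          by_cases hw : w ∈ Bx (max a (-κ - r)) (min b (κ + r)) c d
          · rw [Set.indicator_of_mem hw]
            linarith [(ca_VV_bounds hκ w r).2]
          · rw [Set.indicator_of_notMem hw]
            have : κ + r ≤ |w.re| := by
              by_contra hlt
              rw [not_le, abs_lt] at hlt
              apply hw
              exact ⟨max_le w1 (by linarith [hlt.1]), le_min w2 hlt.2.le, w3, w4⟩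
            rw [ca_VV_outer hκ hr this, sub_self]
    _ = ∫ w in Bx (max a (-κ - r)) (min b (κ + r)) c d, r ^ 2 / (8 * κ) := by
        rw [setIntegral_indicator hB', Set.inter_eq_self_of_subset_right hsub]
    _ = _ := by
        rw [setIntegral_const, Bx_vol, smul_eq_mul, mul_comm]

lemma Ju_lower {κ : ℝ} (hκ : 0 < κ) {a b c d r : ℝ} (hr : 0 < r)
    (hi : IntegrableOn (fun w => Real.circleAverage (VV κ) w r - VV κ w) (Bx a b c d)) :
    r ^ 2 / (8 * κ) * (max (min b (κ - r) - max a (-(κ - r))) 0 * max (d - c) 0) ≤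
    ∫ w in Bx a b c d, (Real.circleAverage (VV κ) w r - VV κ w) := by
  have hB' : MeasurableSet (Bx (max a (-(κ - r))) (min b (κ - r)) c d) :=
    (Bx_closed _ _ _ _).measurableSet
  have hsub : Bx (max a (-(κ - r))) (min b (κ - r)) c d ⊆ Bx a b c d :=
    Bx_mono (le_max_left _ _) (min_le_left _ _) le_rfl le_rfl
  calc r ^ 2 / (8 * κ) * (max (min b (κ - r) - max a (-(κ - r))) 0 * max (d - c) 0) =
      ∫ w in Bx (max a (-(κ - r))) (min b (κ - r)) c d, r ^ 2 / (8 * κ) := by
        rw [setIntegral_const, Bx_vol, smul_eq_mul, mul_comm]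
    _ = ∫ w in Bx a b c d, (Bx (max a (-(κ - r))) (min b (κ - r)) c d).indicator
        (fun _ => r ^ 2 / (8 * κ)) w := by
        rw [setIntegral_indicator hB', Set.inter_eq_self_of_subset_right hsub]
    _ ≤ _ := by
        apply setIntegral_mono_on _ hi
        · exact (Bx_closed _ _ _ _).measurableSet
        · rintro w ⟨w1, w2, w3, w4⟩
          by_cases hw : w ∈ Bx (max a (-(κ - r))) (min b (κ - r)) c d
          · rw [Set.indicator_of_mem hw]
            obtain ⟨v1, v2, v3, v4⟩ := hw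
            have : |w.re| ≤ κ - r := by
              rw [abs_le]
              exact ⟨(le_max_right _ _).trans v1, v2.trans (min_le_right _ _)⟩
            rw [ca_VV_inner hκ hr this]
            linarith
          · rw [Set.indicator_of_notMem hw]
            linarith [(ca_VV_bounds hκ w r).1]
        · apply IntegrableOn.indicator _ hB'
          rw [integrableOn_const_iff]
          right
          exact (Bx_compact _ _ _ _).measure_lt_top

theorem caf (h1 : S_CA1) (h3 : S_CA3) (h4 : S_CA3F) (h5 : S_CA4) : S_CAF := by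
  intro κ X1 X2 ε hκ hX1 hX12 hX2 hε
  have hpi := Real.pi_pos
  have hQ : 0 < 6 * κ + 3 := by positivity
  set r : ℝ := min (1 / 4) (2 * Real.pi * κ * ε / (6 * κ + 3)) with hr
  have hr0 : 0 < r := lt_min (by norm_num) (by positivity)
  have hr4 : r ≤ 1 / 4 := min_le_left _ _
  have hrε : r * (6 * κ + 3) / (4 * Real.pi * κ) ≤ ε / 2 := by
    have : r ≤ 2 * Real.pi * κ * ε / (6 * κ + 3) := min_le_right _ _
    rw [le_div_iff₀ hQ] at this
    rw [div_le_iff₀ (by positivity)]
    linarith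
  set ε1 : ℝ := ε * Real.pi * r ^ 2 / 8 with hε1
  have hε10 : 0 < ε1 := by positivity
  obtain ⟨N, hN2, hNb⟩ : ∃ N : ℕ, 2 ≤ N ∧ 8 * Real.pi * (2 * κ + 5) / (κ * ε1) ≤ N := by
    obtain ⟨N, hN⟩ := exists_nat_ge (8 * Real.pi * (2 * κ + 5) / (κ * ε1))
    refine ⟨N + 2, by omega, ?_⟩
    push_cast
    linarith
  have hN0 : (0 : ℝ) < N := by
    have : 0 < N := by omega
    exact_mod_cast this
  have hN1 : (1 : ℝ) ≤ N := by
    have : 1 ≤ N := by omega
    exact_mod_cast this
  have hNE : 16 * Real.pi * (2 * κ + 5) * (1 / (4 * κ * (N : ℝ) ^ 2)) ≤ ε1 / 2 := by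
    rw [div_le_iff₀ (by positivity)] at hNb
    have hNN : (N : ℝ) ≤ N ^ 2 := by nlinarith
    have e : 16 * Real.pi * (2 * κ + 5) * (1 / (4 * κ * (N : ℝ) ^ 2)) =
        (4 * Real.pi * (2 * κ + 5)) / (κ * (N : ℝ) ^ 2) := by
      field_simp
      ring
    rw [e, div_le_iff₀ (by positivity)]
    have : (N : ℝ) * (κ * ε1) ≤ N ^ 2 * (κ * ε1) :=
      mul_le_mul_of_nonneg_right hNN (by positivity)
    nlinarith
  set δ : ℝ := min (1 / (2 * N)) (ε1 / (96 * Real.pi * (2 * κ + 5))) with hδ
  have hδ0 : 0 < δ := lt_min (by positivity) (by positivity)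
  have hδE : 16 * Real.pi * (2 * κ + 5) * (3 * δ) ≤ ε1 / 2 := by
    have : δ ≤ ε1 / (96 * Real.pi * (2 * κ + 5)) := min_le_right _ _
    rw [le_div_iff₀ (by positivity)] at this
    linarith
  refine ⟨δ, hδ0, ?_⟩
  intro M f hM hf H1 H2
  have h0 : ∃ z, f z ≠ 0 := by
    obtain ⟨w, _, hw⟩ := H2 0 (by simp; linarith) (by simp) (by simp)
    refine ⟨w, ?_⟩
    intro h0
    rw [h0, norm_zero] at hw
    exact absurd hw (not_le.mpr (Real.exp_pos _))
  have hE := cover_est h1 h5 hκ hN2 hδ0 (min_le_left _ _) hM hf h0 H1 H2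
  have hE' : ∫ z in Bx (-κ - 2) (κ + 2) (-1) 2, |Real.log ‖f z‖ - M * VV κ z| ≤ M * ε1 := by
    refine hE.trans ?_
    have : 16 * Real.pi * (2 * κ + 5) * (M * (3 * δ + 1 / (4 * κ * (N : ℝ) ^ 2))) =
        M * (16 * Real.pi * (2 * κ + 5) * (3 * δ) +
          16 * Real.pi * (2 * κ + 5) * (1 / (4 * κ * (N : ℝ) ^ 2))) := by ring
    rw [this]
    apply mul_le_mul_of_nonneg_left _ hM.le
    linarith
  have hbox : ∀ a b c d : ℝ, -κ - 2 ≤ a → b ≤ κ + 2 → -1 ≤ c → d ≤ 2 →
      ∫ w in Bx a b c d, |Real.log ‖f w‖ - M * VV κ w| ≤ M * ε1 := by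
    intro a b c d ha hb hc hd
    refine le_trans ?_ hE'
    apply setIntegral_mono_set (int_abs h1 hf h0 hκ M (Bx_compact _ _ _ _))
    · filter_upwards with w
      exact abs_nonneg _
    · apply LE.le.eventuallyLE
      exact Bx_mono ha hb hc hd
  set A : Set ℂ := {z | X1 ≤ z.re ∧ z.re ≤ X2 ∧ 0 < z.im ∧ z.im ≤ 1} with hA
  have hAK : A ⊆ Bx X1 X2 0 1 := by
    rintro z ⟨a1, a2, a3, a4⟩
    exact ⟨a1, a2, a3.le, a4⟩
  have hell0 : 0 ≤ ell κ X1 X2 := le_max_left _ _
  have hell1 : ell κ X1 X2 ≤ 2 * κ := by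
    unfold ell
    apply max_le (by linarith)
    linarith [min_le_right X2 κ, le_max_right X1 (-κ)]
  have hell2 : min X2 κ - max X1 (-κ) ≤ ell κ X1 X2 := le_max_right _ _
  have hpr : 0 < Real.pi * r ^ 2 / 2 := by positivity
  set L := ell κ X1 X2 with hL
  set n : ℝ := (nz f A : ℝ) with hn
  have hn0 : 0 ≤ n := by rw [hn]; positivity
  -- upper bound
  have hup : n ≤ M / (4 * Real.pi * κ) * ((1 + 2 * r) * (L + 2 * r)) + ε / 2 * M := by
    have g1 := (h3 f hf h0 (X1 - r) (X2 + r) (0 - r) (1 + r) r hr0 (by linarith) (by linarith)).1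
    have e1 : X1 - r + r = X1 := by ring
    have e2 : X2 + r - r = X2 := by ring
    have e3 : 0 - r + r = (0 : ℝ) := by ring
    have e4 : 1 + r - r = (1 : ℝ) := by ring
    rw [e1, e2, e3, e4] at g1
    have g2 : n ≤ nz f (Bx X1 X2 0 1) := by
      rw [hn]
      exact_mod_cast nz_mono hf h0 (Bx_compact _ _ _ _) hAK
    obtain ⟨k1, k2⟩ := J_est h1 h4 hκ M hf h0 (a := X1 - r) (b := X2 + r) (c := 0 - r) (d := 1 + r)
      hr0 (by linarith) (by linarith)
    have k3 := Ju_upper hκ hr0 k1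
    have k4 := hbox (X1 - r - r) (X2 + r + r) (0 - r - r) (1 + r + r) (by linarith) (by linarith)
      (by linarith) (by linarith)
    have k5 := (abs_le.mp k2).2
    have k6 : max (min (X2 + r) (κ + r) - max (X1 - r) (-κ - r)) 0 ≤ L + 2 * r := by
      apply max_le _ (by linarith)
      rw [min_add_add_right, max_sub_sub_right]
      linarith
    have k7 : max (1 + r - (0 - r)) 0 = 1 + 2 * r := by
      rw [max_eq_left (by linarith)]
      ring
    rw [k7] at k3
    set J := ∫ w in Bx (X1 - r) (X2 + r) (0 - r) (1 + r),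
      (Real.circleAverage (fun z => Real.log ‖f z‖) w r - Real.log ‖f w‖) with hJ
    set Ju := ∫ w in Bx (X1 - r) (X2 + r) (0 - r) (1 + r),
      (Real.circleAverage (VV κ) w r - VV κ w) with hJu
    have k8 : Ju ≤ r ^ 2 / (8 * κ) * ((L + 2 * r) * (1 + 2 * r)) := by
      refine k3.trans ?_
      apply mul_le_mul_of_nonneg_left _ (by positivity)
      exact mul_le_mul_of_nonneg_right k6 (by linarith)
    have k9 : Real.pi * r ^ 2 / 2 * n ≤ M * (r ^ 2 / (8 * κ) * ((L + 2 * r) * (1 + 2 * r))) +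
        2 * (M * ε1) := by
      have m1 : Real.pi * r ^ 2 / 2 * n ≤ Real.pi * r ^ 2 / 2 * nz f (Bx X1 X2 0 1) :=
        mul_le_mul_of_nonneg_left g2 hpr.le
      have m2 := mul_le_mul_of_nonneg_left k8 hM.le
      linarith
    have k10 : Real.pi * r ^ 2 / 2 * n ≤ Real.pi * r ^ 2 / 2 *
        (M / (4 * Real.pi * κ) * ((1 + 2 * r) * (L + 2 * r)) + ε / 2 * M) := by
      refine k9.trans (le_of_eq ?_)
      rw [hε1]
      field_simp
      ring
    exact le_of_mul_le_mul_left k10 hpr
  -- lower bound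
  have hlow : M / (4 * Real.pi * κ) * ((1 - 3 * r) * (L - 2 * r)) - ε / 2 * M ≤ n := by
    by_cases hbig : 2 * r ≤ X2 - X1
    · have g1 := (h3 f hf h0 (X1 + r) (X2 - r) (2 * r) (1 - r) r hr0 (by linarith)
        (by linarith)).2
      have g2 : (nz f (Bx (X1 + r - r) (X2 - r + r) (2 * r - r) (1 - r + r)) : ℝ) ≤ n := by
        rw [hn]
        have : nz f (Bx (X1 + r - r) (X2 - r + r) (2 * r - r) (1 - r + r)) ≤ nz f A := by
          apply nz_mono' hf h0 (Bx_compact X1 X2 0 1) _ hAK
          rintro z ⟨z1, z2, z3, z4⟩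
          exact ⟨by linarith, by linarith, by linarith, by linarith⟩
        exact_mod_cast this
      obtain ⟨k1, k2⟩ := J_est h1 h4 hκ M hf h0 (a := X1 + r) (b := X2 - r) (c := 2 * r)
        (d := 1 - r) hr0 (by linarith) (by linarith)
      have k3 := Ju_lower hκ hr0 k1
      have k4 := hbox (X1 + r - r) (X2 - r + r) (2 * r - r) (1 - r + r) (by linarith) (by linarith)
        (by linarith) (by linarith)
      have k5 := (abs_le.mp k2).1
      have k7 : max (1 - r - 2 * r) 0 = 1 - 3 * r := by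
        rw [max_eq_left (by linarith)]
        ring
      rw [k7] at k3
      have k6 : L - 2 * r ≤ max (min (X2 - r) (κ - r) - max (X1 + r) (-(κ - r))) 0 := by
        have e1 : max (X1 + r) (-(κ - r)) = max X1 (-κ) + r := by
          rw [show -(κ - r) = -κ + r by ring, max_add_add_right]
        rw [min_sub_sub_right, e1, hL]
        unfold ell
        rcases le_total (min X2 κ - max X1 (-κ)) 0 with h | h
        · rw [max_eq_left h]
          refine le_trans ?_ (le_max_right _ _)
          linarith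
        · rw [max_eq_right h]
          refine le_trans ?_ (le_max_left _ _)
          linarith
      set J := ∫ w in Bx (X1 + r) (X2 - r) (2 * r) (1 - r),
        (Real.circleAverage (fun z => Real.log ‖f z‖) w r - Real.log ‖f w‖) with hJ
      set Ju := ∫ w in Bx (X1 + r) (X2 - r) (2 * r) (1 - r),
        (Real.circleAverage (VV κ) w r - VV κ w) with hJu
      have k8 : r ^ 2 / (8 * κ) * ((L - 2 * r) * (1 - 3 * r)) ≤ Ju := by
        refine le_trans ?_ k3
        apply mul_le_mul_of_nonneg_left _ (by positivity)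
        exact mul_le_mul_of_nonneg_right k6 (by linarith)
      have k9 : M * (r ^ 2 / (8 * κ) * ((L - 2 * r) * (1 - 3 * r))) - 2 * (M * ε1) ≤
          Real.pi * r ^ 2 / 2 * n := by
        have m1 := mul_le_mul_of_nonneg_left g2 hpr.le
        have m2 := mul_le_mul_of_nonneg_left k8 hM.le
        linarith
      have k10 : Real.pi * r ^ 2 / 2 * (M / (4 * Real.pi * κ) * ((1 - 3 * r) * (L - 2 * r)) -
          ε / 2 * M) ≤ Real.pi * r ^ 2 / 2 * n := by
        refine le_trans (le_of_eq ?_) k9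
        rw [hε1]
        field_simp
        ring
      exact le_of_mul_le_mul_left k10 hpr
    · rw [not_le] at hbig
      have : L ≤ 2 * r := by
        rw [hL]
        unfold ell
        apply max_le (by linarith)
        linarith [min_le_left X2 κ, le_max_left X1 (-κ)]
      have m1 : (1 - 3 * r) * (L - 2 * r) ≤ 0 :=
        mul_nonpos_of_nonneg_of_nonpos (by linarith) (by linarith)
      have m2 : M / (4 * Real.pi * κ) * ((1 - 3 * r) * (L - 2 * r)) ≤ 0 :=
        mul_nonpos_of_nonneg_of_nonpos (by positivity) m1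
      have m3 : 0 ≤ ε / 2 * M := by positivity
      linarith
  have hfin : M * (r * (6 * κ + 3) / (4 * Real.pi * κ)) ≤ M * (ε / 2) :=
    mul_le_mul_of_nonneg_left hrε hM.le
  have hMc : 0 ≤ M / (4 * Real.pi * κ) := by positivity
  rw [abs_le]
  constructor
  · have m1 : M / (4 * Real.pi * κ) * (L - r * (6 * κ + 3)) ≤
        M / (4 * Real.pi * κ) * ((1 - 3 * r) * (L - 2 * r)) := by
      apply mul_le_mul_of_nonneg_left _ hMc
      nlinarith
    have m2 : M / (4 * Real.pi * κ) * (L - r * (6 * κ + 3)) =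
        M * (L / (4 * Real.pi * κ)) - M * (r * (6 * κ + 3) / (4 * Real.pi * κ)) := by
      field_simp
    linarith
  · have m1 : M / (4 * Real.pi * κ) * ((1 + 2 * r) * (L + 2 * r)) ≤
        M / (4 * Real.pi * κ) * (L + r * (6 * κ + 3)) := by
      apply mul_le_mul_of_nonneg_left _ hMc
      nlinarith
    have m2 : M / (4 * Real.pi * κ) * (L + r * (6 * κ + 3)) =
        M * (L / (4 * Real.pi * κ)) + M * (r * (6 * κ + 3) / (4 * Real.pi * κ)) := by
      field_simp
    linarith

end Pool.Agent.W490.BH
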